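import Pool.Agent.helper17.GFG.Spec

/-!
# Row gg:KD2 (MP_561ff4_al): all long root elements, type `-2`
-/

set_option autoImplicit false

open Finset

namespace Pool.Agent.EXT

open Pool.Agent.EXC

lemma KD2_sg (v w : Fin 6 → ℤ) : sg C6 v w = 1 ∨ sg C6 v w = -1 := by
  unfold sg
  split_ifs
  · exact Or.inl rfl
  · exact Or.inr rfl

lemma KD2_sgK {K : Type} [Field K] (v w : Fin 6 → ℤ) : ((sg C6 v w : ℤ) : K) = 1 ∨ ((sg C6 v w : ℤ) : K) = -1 := by
  rcases KD2_sg v w with h | h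
  · left; rw [h]; simp
  · right; rw [h]; simp

/-- commutator: `x_α(s), x_β(t) ∈ H` give `x_{α+β}(± s t) ∈ H` -/
lemma KD2_com {K : Type} [Field K] (H : Subgroup (Lm C6 K ≃ₗ[K] Lm C6 K)) (α β : Fin 6 → ℤ) (hα : ip C6 α α = 2) (hβ : ip C6 β β = 2)
    (h : ip C6 α β = -1) (s t : K) (h1 : XG C6 α s ∈ H) (h2 : XG C6 β t ∈ H) : XG C6 (α + β) (s * t * (sg C6 α β : K)) ∈ H := by
  have e := (k_GXC 6 C6 K hb6 α β hα hβ s t).2.2.2 h
  have e2 : XG C6 (α + β) (s * t * (sg C6 α β : K)) = (XG C6 β t)⁻¹ * (XG C6 α s * XG C6 β t * (XG C6 α s)⁻¹) := by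
    rw [e, inv_mul_cancel_left]
  rw [e2]
  exact H.mul_mem (H.inv_mem h2) (H.mul_mem (H.mul_mem h1 h2) (H.inv_mem h1))

/-- a root is strong if all the elements with parameters in `A` are in `H` -/
def KD2_st {K : Type} [Field K] (A : Subring K) (H : Subgroup (Lm C6 K ≃ₗ[K] Lm C6 K)) (r : Fin 6 → ℤ) : Prop := ∀ s ∈ A, XG C6 r s ∈ H

lemma KD2_add {K : Type} [Field K] (A : Subring K) (H : Subgroup (Lm C6 K ≃ₗ[K] Lm C6 K)) (α β γ : Fin 6 → ℤ) (hα : ip C6 α α = 2)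
    (hβ : ip C6 β β = 2) (h : ip C6 α β = -1) (hγ : α + β = γ) (h1 : KD2_st A H α) (h2 : KD2_st A H β) : KD2_st A H γ := by
  intro s hs
  subst hγ
  rcases KD2_sgK (K := K) α β with e | e
  · have := KD2_com H α β hα hβ h s 1 (h1 s hs) (h2 1 A.one_mem)
    rwa [e, mul_one, mul_one] at this
  · have := KD2_com H α β hα hβ h (-s) 1 (h1 (-s) (A.neg_mem hs)) (h2 1 A.one_mem)
    rwa [e, mul_one, neg_mul_neg, mul_one] at this

theorem KD2 (hKVA : KVA_stmt) (hKPP : KPP_stmt) (hKGN : KGN_stmt) (hKXC : KXC_stmt) : KD2_stmt := by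
  intro K _ _ κ hκ H hY hP
  set A : Subring K := Subring.closure {κ} with hA
  have hκA : κ ∈ A := Subring.subset_closure (Set.mem_singleton κ)
  have va : ∀ r, LR r → ip C6 r th = -1 → ∀ s ∈ A, s ≠ 0 → (XG C6 r s ∈ H ∨ XG C6 (r + th) s ∈ H) → KD2_st A H r ∧ KD2_st A H (r + th) := by
    intro r h1 h2 s hs hs0 h3
    have := (hKVA K κ hκ r h1 h2).2 inferInstance H hY s hs hs0 h3
    exact ⟨fun t ht => (this t ht).1, fun t ht => (this t ht).2⟩
  -- (1)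
  have hB := hKPP K κ hκ H hY
  have b1 : XG C6 (bt3 1) κ ∈ H := hB 1 (hP 1)
  have b2 : XG C6 (bt3 2) κ ∈ H := hB 2 (hP 2)
  -- (2)
  have rt1 : ip C6 (bt3 1) (bt3 1) = 2 := by decide +kernel
  have rt2 : ip C6 (bt3 2) (bt3 2) = 2 := by decide +kernel
  have c0 : ip C6 (th + cc3 0) (th + cc3 0) = 2 := by decide +kernel
  have s1 : ip C6 (-sr 1 : Fin 6 → ℤ) (-sr 1) = 2 := by decide +kernel
  have hn : XG C6 (bt3 1 + (th + cc3 0)) (κ * 1 * (sg C6 (bt3 1) (th + cc3 0) : K)) ∈ H := by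
    have e1 := (k_GXC 6 C6 K hb6 (bt3 1) (th + cc3 0) rt1 c0 κ 1).2.2.2 (by decide +kernel)
    have e2 := (k_GXC 6 C6 K hb6 (bt3 1) (-sr 1) rt1 s1 κ 1).2.2.1 (by decide +kernel)
    have e3 := (k_GXC 6 C6 K hb6 (bt3 1 + (th + cc3 0)) (th + cc3 0) (by decide +kernel) c0
      (κ * 1 * (sg C6 (bt3 1) (th + cc3 0) : K)) 1).2.2.1 (by decide +kernel)
    have hP0 := hP 0
    have hm : XG C6 (bt3 1) κ * (XG C6 (th + cc3 0) 1 * XG C6 (-sr 1) 1) * (XG C6 (bt3 1) κ)⁻¹ * (XG C6 (th + cc3 0) 1 * XG C6 (-sr 1) 1)⁻¹ ∈ H :=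
      H.mul_mem (H.mul_mem (H.mul_mem b1 hP0) (H.inv_mem b1)) (H.inv_mem hP0)
    generalize XG C6 (bt3 1 + (th + cc3 0)) (κ * 1 * (sg C6 (bt3 1) (th + cc3 0) : K)) = n at *
    generalize XG C6 (bt3 1) κ = b at *
    generalize XG C6 (th + cc3 0) (1 : K) = p at *
    generalize XG C6 (-sr 1 : Fin 6 → ℤ) (1 : K) = q at *
    have : b * (p * q) * b⁻¹ * (p * q)⁻¹ = n := by
      calc b * (p * q) * b⁻¹ * (p * q)⁻¹ = (b * p * b⁻¹) * (b * q * b⁻¹) * (p * q)⁻¹ := by group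
        _ = (p * n) * (q * b * b⁻¹) * (p * q)⁻¹ := by rw [e1, e2]
        _ = (p * n) * p⁻¹ := by group
        _ = n := by rw [← e3]; group
    rwa [this] at hm
  have n1 : bt3 1 + (th + cc3 0) = (![0, -1, -1, -1, -1, 0] : Fin 6 → ℤ) + th := by decide +kernel
  rw [n1] at hn
  have hsA : κ * 1 * (sg C6 (bt3 1) (th + cc3 0) : K) ∈ A := by
    rcases KD2_sgK (K := K) (bt3 1) (th + cc3 0) with e | e
    · rw [e, mul_one, mul_one]; exact hκA
    · rw [e, mul_one, mul_neg, mul_one]; exact A.neg_mem hκA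
  have hs0 : κ * 1 * (sg C6 (bt3 1) (th + cc3 0) : K) ≠ 0 := by
    rcases KD2_sgK (K := K) (bt3 1) (th + cc3 0) with e | e
    · rw [e, mul_one, mul_one]; exact hκ
    · rw [e, mul_one, mul_neg, mul_one]; exact neg_ne_zero.2 hκ
  obtain ⟨r1, -⟩ := va ![0, -1, -1, -1, -1, 0] (by unfold LR; decide +kernel) (by decide +kernel) _ hsA hs0 (Or.inr hn)
  -- (3)
  have h3 := KD2_com H (bt3 2) ![0, -1, -1, -1, -1, 0] rt2 (by decide +kernel) (by decide +kernel) κ 1 b2 (r1 1 A.one_mem)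
  have n3 : bt3 2 + ![0, -1, -1, -1, -1, 0] = (-sr 1 : Fin 6 → ℤ) := by decide +kernel
  rw [n3] at h3
  have hsA3 : κ * 1 * (sg C6 (bt3 2) ![0, -1, -1, -1, -1, 0] : K) ∈ A := by
    rcases KD2_sgK (K := K) (bt3 2) ![0, -1, -1, -1, -1, 0] with e | e
    · rw [e, mul_one, mul_one]; exact hκA
    · rw [e, mul_one, mul_neg, mul_one]; exact A.neg_mem hκA
  have hs03 : κ * 1 * (sg C6 (bt3 2) ![0, -1, -1, -1, -1, 0] : K) ≠ 0 := by
    rcases KD2_sgK (K := K) (bt3 2) ![0, -1, -1, -1, -1, 0] with e | e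
    · rw [e, mul_one, mul_one]; exact hκ
    · rw [e, mul_one, mul_neg, mul_one]; exact neg_ne_zero.2 hκ
  obtain ⟨st1, st1'⟩ := va (-sr 1) (by unfold LR; decide +kernel) (by decide +kernel) _ hsA3 hs03 (Or.inl h3)
  -- (4)
  have hcc : ∀ k : Fin 3, (ip C6 (cc3 k) (cc3 k) = 2 ∧ pv (cc3 k) = cc3 k) ∧ ip C6 (cc3 k) th = -1 := by decide +kernel
  have h4 : ∀ k : Fin 3, KD2_st A H (cc3 k) ∧ KD2_st A H (cc3 k + th) := by
    intro k
    have m1 : XG C6 (th + cc3 k) (1 : K) ∈ H := by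
      have e : XG C6 (th + cc3 k) (1 : K) = (XG C6 (th + cc3 k) 1 * XG C6 (-sr 1) 1) * (XG C6 (-sr 1) 1)⁻¹ := by group
      rw [e]
      exact H.mul_mem (hP k) (H.inv_mem (st1 1 A.one_mem))
    have e : th + cc3 k = cc3 k + th := add_comm _ _
    rw [e] at m1
    exact va (cc3 k) (hcc k).1 (hcc k).2 1 A.one_mem one_ne_zero (Or.inr m1)
  -- (5)
  have m0 : KD2_st A H (-bt3 0) := KD2_add A H (cc3 1 + th) (cc3 2) _ (by decide +kernel) (by decide +kernel) (by decide +kernel)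
    (by decide +kernel) (h4 1).2 (h4 2).1
  have m1 : KD2_st A H (-bt3 1) := KD2_add A H (cc3 0 + th) (cc3 2) _ (by decide +kernel) (by decide +kernel) (by decide +kernel)
    (by decide +kernel) (h4 0).2 (h4 2).1
  have m2 : KD2_st A H (-bt3 2) := KD2_add A H (cc3 0 + th) (cc3 1) _ (by decide +kernel) (by decide +kernel) (by decide +kernel)
    (by decide +kernel) (h4 0).2 (h4 1).1
  -- (7)
  have p0 : KD2_st A H (bt3 0) := KD2_add A H (-sr 1 + th) (cc3 0) _ (by decide +kernel) (by decide +kernel) (by decide +kernel)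
    (by decide +kernel) st1' (h4 0).1
  have p1 : KD2_st A H (bt3 1) := KD2_add A H (-sr 1 + th) (cc3 1) _ (by decide +kernel) (by decide +kernel) (by decide +kernel)
    (by decide +kernel) st1' (h4 1).1
  have p2 : KD2_st A H (bt3 2) := KD2_add A H (-sr 1 + th) (cc3 2) _ (by decide +kernel) (by decide +kernel) (by decide +kernel)
    (by decide +kernel) st1' (h4 2).1
  -- (8)
  have mm : KD2_st A H ![-1, -1, -2, -3, -2, -1] := KD2_add A H (cc3 0) (-bt3 0) _ (by decide +kernel) (by decide +kernel) (by decide +kernel)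
    (by decide +kernel) (h4 0).1 m0
  have mth : KD2_st A H (-th) := KD2_add A H (-sr 1) ![-1, -1, -2, -3, -2, -1] _ (by decide +kernel) (by decide +kernel) (by decide +kernel)
    (by decide +kernel) st1 mm
  obtain ⟨-, s1p⟩ := va ![-1, -1, -2, -3, -2, -1] (by unfold LR; decide +kernel) (by decide +kernel) 1 A.one_mem one_ne_zero
    (Or.inl (mm 1 A.one_mem))
  have xp : ∀ v : Fin 6 → ℤ, KD2_st A H v → XP6 (1 : K) v 1 ∈ H := by
    intro v hv
    have e : XP6 (1 : K) v 1 = XG C6 v 1 := by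
      unfold XP6
      rw [one_zpow, mul_one]
    rw [e]
    exact hv 1 A.one_mem
  refine ⟨hKGN K 1 one_ne_zero H fun j => ?_, mth κ hκA⟩
  refine xp _ ?_
  have l0 : lt7 (sx8 0) = (![-1, -1, -2, -3, -2, -1] : Fin 6 → ℤ) + th := by decide +kernel
  have l1 : lt7 (sx8 1) = (-sr 1 : Fin 6 → ℤ) := by decide +kernel
  have l2 : lt7 (sx8 2) = bt3 1 := by decide +kernel
  have l3 : lt7 (sx8 3) = -bt3 1 := by decide +kernel
  have l4 : lt7 (sx8 4) = bt3 2 := by decide +kernel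
  have l5 : lt7 (sx8 5) = -bt3 2 := by decide +kernel
  have l6 : lt7 (sx8 6) = bt3 0 := by decide +kernel
  have l7 : lt7 (sx8 7) = -bt3 0 := by decide +kernel
  fin_cases j
  · exact l0 ▸ s1p
  · exact l1 ▸ st1
  · exact l2 ▸ p1
  · exact l3 ▸ m1
  · exact l4 ▸ p2
  · exact l5 ▸ m2
  · exact l6 ▸ p0
  · exact l7 ▸ m0

end Pool.Agent.EXT
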